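import Pool.Agent.L0h94.SL.Defs

/-!
# Project SL: square classes of a point; translation by a 2-torsion point
-/

set_option autoImplicit false

namespace Pool.Agent.L0h94.SL

/-- `LocSol` for classes in `K` -/
def LSK (K : Type) [Field K] (r c : Fin 3 → K) : Prop :=
  ∃ x : K, ∀ i, ∃ z : K, z ≠ 0 ∧ x - r i = c i * z ^ 2

lemma locSol_iff {K : Type} [Field K] (r d : Fin 3 → ℤ) :
    LocSol K r d ↔ LSK K (fun i => (r i : K)) (fun i => (d i : K)) := Iff.rfl

/-- only the square classes matter -/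
lemma sqc {K : Type} [Field K] {r c c' : Fin 3 → K} (h : LSK K r c)
    (hc : ∀ i, ∃ t : K, t ≠ 0 ∧ c i = c' i * t ^ 2) : LSK K r c' := by
  obtain ⟨x, hx⟩ := h
  refine ⟨x, fun i => ?_⟩
  obtain ⟨z, hz, h1⟩ := hx i
  obtain ⟨t, ht, h2⟩ := hc i
  exact ⟨t * z, mul_ne_zero ht hz, by rw [h1, h2]; ring⟩

/-- translation by the torsion point `i` -/
lemma tcl {K : Type} [Field K] {r c : Fin 3 → K} {i j k : Fin 3} (hij : i ≠ j) (hik : i ≠ k)
    (hjk : j ≠ k) (h1 : r i ≠ r j) (h2 : r i ≠ r k)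
    (hs : ∃ s : K, s ≠ 0 ∧ c i * c j * c k = s ^ 2) (h : LSK K r c) :
    LSK K r (fun n => c n * (if n = i then (r i - r j) * (r i - r k) else (r i - r n))) := by
  obtain ⟨s, hs0, hs⟩ := hs
  obtain ⟨x, hx⟩ := h
  obtain ⟨zi, hzi, ei⟩ := hx i
  obtain ⟨zj, hzj, ej⟩ := hx j
  obtain ⟨zk, hzk, ek⟩ := hx k
  have hci : c i ≠ 0 := by
    rintro h0
    rw [h0] at hs
    apply hs0
    have : s ^ 2 = 0 := by rw [← hs]; ring
    exact pow_eq_zero_iff (two_ne_zero) |>.1 this
  have hcj : c j ≠ 0 := by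
    rintro h0
    rw [h0] at hs
    apply hs0
    have : s ^ 2 = 0 := by rw [← hs]; ring
    exact pow_eq_zero_iff (two_ne_zero) |>.1 this
  have hck : c k ≠ 0 := by
    rintro h0
    rw [h0] at hs
    apply hs0
    have : s ^ 2 = 0 := by rw [← hs]; ring
    exact pow_eq_zero_iff (two_ne_zero) |>.1 this
  have hxi : x - r i ≠ 0 := by rw [ei]; exact mul_ne_zero hci (pow_ne_zero _ hzi)
  refine ⟨r i + (r i - r j) * (r i - r k) / (x - r i), fun n => ?_⟩
  have hn : n = i ∨ n = j ∨ n = k := by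
    revert hij hik hjk
    fin_cases i <;> fin_cases j <;> fin_cases k <;> fin_cases n <;> simp
  rcases hn with rfl | rfl | rfl
  · refine ⟨1 / (c n * zi), one_div_ne_zero (mul_ne_zero hci hzi), ?_⟩
    simp only [if_true]
    rw [ei]
    field_simp
    ring
  · simp only [if_neg (Ne.symm hij)]
    refine ⟨s * zk / (c i * c n * zi), ?_, ?_⟩
    · exact div_ne_zero (mul_ne_zero hs0 hzk) (mul_ne_zero (mul_ne_zero hci hcj) hzi)
    · have e : r i + (r i - r n) * (r i - r k) / (x - r i) - r n =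
          (r i - r n) * (x - r k) / (x - r i) := by
        field_simp
        ring
      rw [e, ek, ei, div_pow, mul_pow s, ← hs]
      field_simp
  · simp only [if_neg (Ne.symm hik)]
    refine ⟨s * zj / (c i * c n * zi), ?_, ?_⟩
    · exact div_ne_zero (mul_ne_zero hs0 hzj) (mul_ne_zero (mul_ne_zero hci hck) hzi)
    · have e : r i + (r i - r j) * (r i - r n) / (x - r i) - r n =
          (r i - r n) * (x - r j) / (x - r i) := by
        field_simp
        ring
      rw [e, ej, ei, div_pow, mul_pow s, ← hs]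
      field_simp

end Pool.Agent.L0h94.SL
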