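import Pool.Agent.L0h94.SL.Stp

/-!
# Project SL: the first case of the induction
-/

set_option autoImplicit false

namespace Pool.Agent.L0h94.SL

open Finset Pool.Agent.W262.RK Pool.Agent.L0h94.RZ Pool.Agent.L0h94.RZ.Ind

lemma Sol_ExtG (hO : S_OKA) {a X y : ℕ} {s : Fin 3 → ℕ} {E : Finset ℕ} (hs : s ∈ Tup (Fin 3) 3 y)
    (hy : y ^ 2 ≤ X) (hc : ∀ o, corkS o s E ≤ a ∧ a ≤ corkS o s E + 1) {t : ℕ × ℕ × ℕ}
    (ht : t ∈ Sol X s E) : (s 0 * t.1, s 2 * t.2.2) ∈ ExtG (OkA a) X y s E := by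
  obtain ⟨hp, hq, hr, hp2, hq2, hr2, hle, hG, hb⟩ := mem_Sol ht
  obtain ⟨p, q, r⟩ := t
  simp only at *
  have h0 := ne_zero_of_Tup hs
  have hbe : s 0 * p + 4 * (s 2 * r) = s 1 * q := hG.hb.symm
  have hnl : ∀ l a : ℕ, l ≤ y → X < a ^ 2 → l ≠ a := by
    rintro l a hl ha rfl
    have := Nat.pow_le_pow_left hl 2
    omega
  have hdv : ∀ (l a c : ℕ), l.Prime → a.Prime → l ≠ a → (l ∣ c * a ↔ l ∣ c) := by
    intro l a c hl ha hne
    rw [hl.dvd_mul]
    constructor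
    · rintro (h | h)
      · exact h
      · exact absurd ((Nat.prime_dvd_prime_iff_eq hl ha).1 h) hne
    · exact fun h => Or.inl h
  have hsq := hG.sq
  -- the large primes do not divide `∏ s`
  have hnd : ∀ i : Fin 3, ∀ a ∈ ({p, q, r} : Finset ℕ), ¬ a ∣ s i := by
    intro i a ha hd
    have hpr : a.Prime := by
      simp only [mem_insert, mem_singleton] at ha
      rcases ha with rfl | rfl | rfl <;> assumption
    have haX : X < a ^ 2 := by
      simp only [mem_insert, mem_singleton] at ha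
      rcases ha with rfl | rfl | rfl <;> assumption
    have hai : a ∈ (∏ i, s i).primeFactors := Nat.mem_primeFactors.2
      ⟨hpr, hd.trans (dvd_prod_of_mem _ (mem_univ i)), (sqf_of_Tup hs).ne_zero⟩
    exact hnl a a (bd_of_Tup hs hai).2.2 haX rfl
  have hprod : s 0 * p * (s 1 * q) * (s 2 * r) = (∏ i, s i) * (p * q * r) := by
    rw [Fin.prod_univ_three]; ring
  have hpf : (s 0 * p * (s 1 * q) * (s 2 * r)).primeFactors \ {p, q, r} =
      (∏ i, s i).primeFactors := by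
    rw [hprod, Nat.primeFactors_mul (sqf_of_Tup hs).ne_zero
      (mul_ne_zero (mul_ne_zero hp.ne_zero hq.ne_zero) hr.ne_zero),
      Nat.primeFactors_mul (mul_ne_zero hp.ne_zero hq.ne_zero) hr.ne_zero,
      Nat.primeFactors_mul hp.ne_zero hq.ne_zero, hp.primeFactors, hq.primeFactors,
      hr.primeFactors]
    ext l
    simp only [mem_sdiff, mem_union, mem_singleton, mem_insert]
    constructor
    · rintro ⟨h | h, h'⟩
      · exact h
      · exact absurd (by tauto) h'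
    · intro h
      refine ⟨Or.inl h, fun h' => ?_⟩
      have hl := Nat.prime_of_mem_primeFactors h
      obtain ⟨i, _, hi⟩ := (hl.prime.dvd_finsetProd_iff _).1 (Nat.dvd_of_mem_primeFactors h)
      exact hnd i l (by simpa using h') hi
  rw [mem_ExtG]
  simp only
  have hs0p : 1 ≤ s 0 * p := Nat.one_le_iff_ne_zero.2 (mul_ne_zero (h0 0) hp.ne_zero)
  have hs2r : 1 ≤ s 2 * r := Nat.one_le_iff_ne_zero.2 (mul_ne_zero (h0 2) hr.ne_zero)
  refine ⟨⟨⟨hs0p, by omega⟩, ⟨hs2r, by omega⟩⟩, by omega, ?_, ?_, ?_⟩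
  · rw [hbe]
    refine hO a _ _ _ p q r hG hp hq hr (dvd_mul_left _ _) (dvd_mul_left _ _)
      (dvd_mul_left _ _) ?_
    intro o
    rw [hpf]
    have := hc o
    unfold corkS at this
    rw [cork_congr o (cl' := clf (s 0) (s 1)) (τ' := ind E)]
    · exact this
    · intro l hl
      have hl' := bd_of_Tup hs hl
      exact clf_congr (hdv l p _ hl'.1 hp (hnl l p hl'.2.2 hp2))
        (hdv l q _ hl'.1 hq (hnl l q hl'.2.2 hq2))
    · exact hb
  · rw [hbe]
    intro l hl hly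
    exact ⟨hdv l p _ hl hp (hnl l p hly hp2), hdv l q _ hl hq (hnl l q hly hq2),
      hdv l r _ hl hr (hnl l r hly hr2)⟩
  · rw [hbe]
    exact hb

lemma Sol_card_leG (hO : S_OKA) {a X y : ℕ} {s : Fin 3 → ℕ} {E : Finset ℕ}
    (hs : s ∈ Tup (Fin 3) 3 y) (hy : y ^ 2 ≤ X)
    (hc : ∀ o, corkS o s E ≤ a ∧ a ≤ corkS o s E + 1) :
    (Sol X s E).card ≤ (ExtG (OkA a) X y s E).card := by
  have h0 := ne_zero_of_Tup hs
  refine card_le_card_of_injOn (fun t => (s 0 * t.1, s 2 * t.2.2))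
    (fun t ht => Sol_ExtG hO hs hy hc ht) ?_
  intro t ht t' ht' heq
  have h1 := (mem_Sol ht).2.2.2.2.2.2.2.1.hb
  have h2 := (mem_Sol ht').2.2.2.2.2.2.2.1.hb
  simp only [Prod.mk.injEq] at heq
  have e1 : t.1 = t'.1 := Nat.eq_of_mul_eq_mul_left (Nat.pos_of_ne_zero (h0 0)) heq.1
  have e3 : t.2.2 = t'.2.2 := Nat.eq_of_mul_eq_mul_left (Nat.pos_of_ne_zero (h0 2)) heq.2
  have e2 : t.2.1 = t'.2.1 := Nat.eq_of_mul_eq_mul_left (Nat.pos_of_ne_zero (h0 1))
    (by rw [h1, h2, e1, e3])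
  exact Prod.ext e1 (Prod.ext e2 e3)

theorem bas (hAN : S_AN) (hO : S_OKA) : S_BAS := by
  intro a ρ hρ
  obtain ⟨c, hc, X0, h⟩ := hAN ρ hρ
  refine ⟨1 / 10, c, by norm_num, le_rfl, hc, max X0 1, fun X hX => ?_⟩
  obtain ⟨D, hD, h⟩ := h X (le_trans (le_max_left _ _) hX)
  refine ⟨D, hD, fun y s E hy hs hps hom hcl hco => ?_⟩
  have hX1 : 1 ≤ X := le_trans (le_max_right _ _) hX
  have hco' : ∀ o, corkS o s E ≤ a ∧ a ≤ corkS o s E + 1 := by
    obtain ⟨h1, h2, h3, h4⟩ := hco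
    have h1f := h1 false
    have h1t := h1 true
    simp only at h1f h1t h2 h3 h4
    intro o
    cases o
    · exact ⟨h1f, by omega⟩
    · exact ⟨h1t, by omega⟩
  refine (h s E (St_of_Tup hs) hps (by simpa using hom) hcl).trans ?_
  exact_mod_cast Sol_card_leG hO hs (pow_tenth hX1 hy) hco'

end Pool.Agent.L0h94.SL
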