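import Pool.Agent.L0h94.SL.Stp
import Pool.Agent.L0h19.RZ.Cnt

/-!
# Project SL: the induction, and a positive proportion of the pairs is good
-/

set_option autoImplicit false

namespace Pool.Agent.L0h94.SL

open Finset Pool.Agent.W262.RK Pool.Agent.L0h94.RZ

lemma PKG_mono {G : ℕ → ℕ → ℕ → Prop} {Q Q' : (Bool → ℕ) → Prop} {K : ℕ} {ρ : ℝ}
    (h : ∀ k, Q k → Q' k) (hP : PKG G Q' K ρ) : PKG G Q K ρ := by
  obtain ⟨δ, c, h1, h2, h3, X0, h4⟩ := hP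
  refine ⟨δ, c, h1, h2, h3, X0, fun X hX => ?_⟩
  obtain ⟨D, hD, h5⟩ := h4 X hX
  exact ⟨D, hD, fun y s E a1 a2 a3 a4 a5 a6 => h5 y s E a1 a2 a3 a4 a5 (h _ a6)⟩

/-- module INDA -/
theorem inda (hS : S_STP) (hB : S_BAS) (hD : S_STD) (hU : S_STU) : S_INDA := by
  intro a K
  have hup : ∀ n : ℕ, ∀ ρ : ℝ, 0 < ρ → ρ ≤ 1 / 4 → PKG (OkA a) (QU a n) n ρ := by
    intro n
    induction n with
    | zero => exact fun ρ hρ _ => hB a ρ hρ
    | succ n ih => exact hS _ _ _ _ n (hU a n) ih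
  have h0 : ∀ ρ : ℝ, 0 < ρ → ρ ≤ 1 / 4 → PKG (OkA a) (QD 0) (2 * a) ρ := by
    intro ρ hρ hρ4
    refine PKG_mono ?_ (hup (2 * a) ρ hρ hρ4)
    intro k hk
    have h1 := hk false
    have h2 := hk true
    refine ⟨fun o => (hk o).trans (Nat.zero_le _), by omega, by omega, by omega⟩
  have hdn : ∀ K : ℕ, ∀ ρ : ℝ, 0 < ρ → ρ ≤ 1 / 4 → PKG (OkA a) (QD K) (2 * a + K) ρ := by
    intro K
    induction K with
    | zero => exact h0
    | succ K ih => exact hS _ _ _ _ (2 * a + K) (hD K) ih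
  exact ⟨2 * a + K, hdn K⟩

lemma memG {G : ℕ → ℕ → ℕ → Prop} {X y : ℕ} {s : Fin 3 → ℕ} {E : Finset ℕ} {t : ℕ × ℕ}
    (h : t ∈ ExtG G X y s E) :
    t ∈ (Icc 1 X) ×ˢ (Icc 1 X) ∧ t.1 + 4 * t.2 ≤ X ∧ G t.1 (t.1 + 4 * t.2) t.2 ∧
    (∀ p : ℕ, p.Prime → p ≤ y → ((p ∣ t.1 ↔ p ∣ s 0) ∧ (p ∣ t.1 + 4 * t.2 ↔ p ∣ s 1) ∧
      (p ∣ t.2 ↔ p ∣ s 2))) ∧
    ∀ p ∈ (∏ i, s i).primeFactors, tf t.1 (t.1 + 4 * t.2) t.2 p = ind E p :=
  (@mem_filter _ _ (_) _ _).1 h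

open Classical in
/-- module CNTA -/
theorem cnta (hM : S_MASS) (hI : S_INDA) : S_CNTA := by
  intro a
  obtain ⟨K, hK⟩ := hM
  obtain ⟨K', hI⟩ := hI a K
  obtain ⟨δ, c1, hδ, hδ1, hc1, X1, h1⟩ := hI (1 / 4) (by norm_num) le_rfl
  obtain ⟨c2, hc2, X2, h2⟩ := hK δ hδ
  -- `2 ^ K' ≤ log X`
  obtain ⟨X3, hX3⟩ : ∃ X3 : ℕ, ∀ X : ℕ, X3 ≤ X → (2 : ℝ) ^ K' ≤ Real.log X := by
    obtain ⟨n, hn⟩ := exists_nat_ge (Real.exp ((2 : ℝ) ^ K'))
    refine ⟨n, fun X hX => ?_⟩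
    have h3 : Real.exp ((2 : ℝ) ^ K') ≤ X := hn.trans (by exact_mod_cast hX)
    exact (Real.le_log_iff_exp_le (lt_of_lt_of_le (Real.exp_pos _) h3)).2 h3
  refine ⟨c1 * c2, by positivity, max X1 (max X2 X3), fun X hX => ?_⟩
  have hXX1 : X1 ≤ X := (le_max_left _ _).trans hX
  have hXX2 : X2 ≤ X := (le_max_left _ _).trans ((le_max_right _ _).trans hX)
  have hXX3 : X3 ≤ X := (le_max_right _ _).trans ((le_max_right _ _).trans hX)
  have hL := hX3 X hXX3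
  have hL0 : 0 < Real.log X := lt_of_lt_of_le (by positivity) hL
  obtain ⟨D, hD, hE⟩ := h1 X hXX1
  obtain ⟨y, hy, hyD⟩ := h2 X hXX2
  have hmass := hyD D hD
  set F := (Tup (Fin 3) 3 y).filter (fun s => ((∏ i, s i : ℕ) : ℝ) ≤ (X : ℝ) ^ δ ∧
        (2 : ℝ) ^ (∏ i, s i).primeFactors.card ≤ Real.log X ^ 19 ∧ Cln D (∏ i, s i)) with hF
  set B : (Fin 3 → ℕ) → Finset (Finset ℕ) := fun s =>
    (∏ i, s i).primeFactors.powerset.filter (fun E => ∀ o, corkS o s E ≤ K) with hB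
  set Good := ((Icc 1 X) ×ˢ (Icc 1 X)).filter (fun t : ℕ × ℕ => t.1 + 4 * t.2 ≤ X ∧
    OkA a t.1 (t.1 + 4 * t.2) t.2) with hGood
  -- lower bound for each state
  have hlow : ∀ s ∈ F, ∀ E ∈ B s, c1 * (1 / 2) ^ (∏ i, s i).primeFactors.card *
      ((X : ℝ) ^ 2 / (((∏ i, s i : ℕ) : ℝ) * Real.log X ^ 3)) ≤ ((ExtG (OkA a) X y s E).card : ℝ) := by
    intro s hs E hEs
    rw [hF, mem_filter] at hs
    rw [hB, mem_filter] at hEs
    refine hE y s E hy hs.1 hs.2.1 ?_ hs.2.2.2 hEs.2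
    calc (2 : ℝ) ^ (∏ i, s i).primeFactors.card * 2 ^ K' ≤ Real.log X ^ 19 * Real.log X :=
          mul_le_mul hs.2.2.1 hL (by positivity) (by positivity)
      _ = _ := by ring
  -- the sum over the states
  have hsum : c1 * c2 * (X : ℝ) ^ 2 ≤ ∑ s ∈ F, ∑ E ∈ B s, ((ExtG (OkA a) X y s E).card : ℝ) := by
    have e1 : ∑ s ∈ F, ∑ E ∈ B s, (c1 * (1 / 2) ^ (∏ i, s i).primeFactors.card *
        ((X : ℝ) ^ 2 / (((∏ i, s i : ℕ) : ℝ) * Real.log X ^ 3))) =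
        c1 * (X : ℝ) ^ 2 / Real.log X ^ 3 * ∑ s ∈ F, (1 / ((∏ i, s i : ℕ) : ℝ)) *
          ((1 / 2) ^ (∏ i, s i).primeFactors.card * ((B s).card : ℝ)) := by
      rw [mul_sum]
      refine sum_congr rfl fun s hs => ?_
      rw [sum_const, nsmul_eq_mul]
      rw [hF, mem_filter] at hs
      have hpos : ((∏ i, s i : ℕ) : ℝ) ≠ 0 := by
        have : (∏ i, s i : ℕ) ≠ 0 := prod_ne_zero_iff.2 fun i _ => (Tup_pos hs.1 i).ne'
        exact_mod_cast this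
      have hL3 : Real.log X ^ 3 ≠ 0 := by positivity
      field_simp
    calc c1 * c2 * (X : ℝ) ^ 2 = c1 * (X : ℝ) ^ 2 / Real.log X ^ 3 * (c2 * Real.log X ^ 3) := by
          have hL3 : Real.log X ^ 3 ≠ 0 := by positivity
          field_simp
      _ ≤ c1 * (X : ℝ) ^ 2 / Real.log X ^ 3 * ∑ s ∈ F, (1 / ((∏ i, s i : ℕ) : ℝ)) *
          ((1 / 2) ^ (∏ i, s i).primeFactors.card * ((B s).card : ℝ)) :=
          mul_le_mul_of_nonneg_left hmass (by positivity)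
      _ = _ := e1.symm
      _ ≤ _ := sum_le_sum fun s hs => sum_le_sum fun E hEs => hlow s hs E hEs
  refine hsum.trans ?_
  -- disjointness
  have hcard : ∑ s ∈ F, ∑ E ∈ B s, (ExtG (OkA a) X y s E).card =
      ((F.sigma B).biUnion fun q => ExtG (OkA a) X y q.1 q.2).card := by
    rw [card_biUnion, sum_sigma]
    rintro ⟨s, E⟩ hq ⟨s', E'⟩ hq' hne
    rw [mem_coe, mem_sigma] at hq hq'
    simp only at hq hq'
    refine disjoint_left.2 ?_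
    intro t ht ht'
    apply hne
    replace ht := memG ht
    replace ht' := memG ht'
    have hs := hq.1
    have hs' := hq'.1
    rw [hF, mem_filter] at hs hs'
    have hss : s = s' := by
      refine Cnt.tup_ext hs.1 hs'.1 fun i p hp hpy => ?_
      have a := ht.2.2.2.1 p hp hpy
      have b := ht'.2.2.2.1 p hp hpy
      fin_cases i
      · exact a.1.symm.trans b.1
      · exact a.2.1.symm.trans b.2.1
      · exact a.2.2.symm.trans b.2.2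
    subst hss
    have hEE : E = E' := by
      have hE1 := hq.2
      have hE2 := hq'.2
      rw [hB, mem_filter, mem_powerset] at hE1 hE2
      refine Cnt.ind_inj hE1.1 hE2.1 fun p hp => ?_
      rw [← ht.2.2.2.2 p hp, ← ht'.2.2.2.2 p hp]
    subst hEE
    rfl
  have hsub : ((F.sigma B).biUnion fun q => ExtG (OkA a) X y q.1 q.2) ⊆ Good := by
    intro t ht
    rw [mem_biUnion] at ht
    obtain ⟨q, -, hq⟩ := ht
    replace hq := memG hq
    rw [hGood, mem_filter]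
    exact ⟨hq.1, hq.2.1, hq.2.2.1⟩
  have := card_le_card hsub
  rw [← hcard] at this
  exact_mod_cast this

end Pool.Agent.L0h94.SL
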