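import Pool.Agent.L0h94.RZ.Bas

/-!
# Project SL: every 2-Selmer rank occurs for a positive proportion of the curves. Statements
(paper proofs: docs `SL_*`)
-/

set_option autoImplicit false

namespace Pool.Agent.L0h94.SL

open Finset Pool.Agent.W262.RK Pool.Agent.L0h94.RZ

/-- the corank of the matrix of all primes -/
noncomputable def corkP (o : Bool) (u b w : ℕ) : ℕ :=
  cork o (u * b * w).primeFactors (clf u b) (tf u b w)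

/-- the triples for which one of the two curves will have Selmer rank `a` -/
def OkA (a u b w : ℕ) : Prop := Gd u b w ∧ ∃ o, corkP o u b w = a + 2

/-! ### linear algebra -/

/-- (BRD) deleting one prime of each class -/
def S_BRD : Prop := ∀ (S : Finset ℕ) (cl : ℕ → Fin 3) (e : ℕ → ℕ → ZMod 2),
  (∀ p ∈ S, ∀ q ∈ S, e p q = e q p) →
  (∀ χ : Fin 3, ∀ p ∈ S, ∑ q ∈ S.filter (fun q => cl q = χ), e p q = e p p) →
  ∀ p q r : ℕ, p ∈ S → q ∈ S → r ∈ S → cl p = 0 → cl q = 1 → cl r = 2 →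
    Module.finrank (ZMod 2) (KerE S e) = Module.finrank (ZMod 2) (KerE (S \ {p, q, r}) e) + 2 ∨
    Module.finrank (ZMod 2) (KerE S e) = Module.finrank (ZMod 2) (KerE (S \ {p, q, r}) e) + 3

/-- (OKA) states whose coranks are `a` or `a - 1` -/
def S_OKA : Prop := ∀ (a u b w p q r : ℕ), Gd u b w → p.Prime → q.Prime → r.Prime → p ∣ u →
  q ∣ b → r ∣ w →
  (∀ o, cork o ((u * b * w).primeFactors \ {p, q, r}) (clf u b) (tf u b w) ≤ a ∧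
    a ≤ cork o ((u * b * w).primeFactors \ {p, q, r}) (clf u b) (tf u b w) + 1) → OkA a u b w

/-- (UPS) one more prime increases the corank of the curve `o0` by one, and that of the other curve
by zero or one -/
def S_UPS : Prop := ∀ (S : Finset ℕ) (cl : ℕ → Fin 3) (τ : ℕ → ZMod 2) (o0 : Bool),
  (∀ p ∈ S, p.Prime ∧ p ≠ 2) →
  ∃ 𝒯 : Finset (Finset ℕ), 𝒯.card ≤ 2 ^ cork false S cl τ + 2 ^ cork true S cl τ ∧
    (∀ T ∈ 𝒯, T ⊆ S) ∧ ∀ l : ℕ, l.Prime → l ∉ S → l % 8 = 1 →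
      (∀ T ∈ 𝒯, ∑ p ∈ T, nr p l = 0) → ∃ d : ZMod 2,
        (∀ o, cork o S cl τ ≤ cork o (insert l S) (Function.update cl l 0)
            (Function.update τ l d) ∧
          cork o (insert l S) (Function.update cl l 0) (Function.update τ l d) ≤
            cork o S cl τ + 1) ∧
        cork o0 (insert l S) (Function.update cl l 0) (Function.update τ l d) =
          cork o0 S cl τ + 1

/-- one more prime with at most `M` prescribed symbols leads from `Q` to `Q'` -/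
def Steer (Q Q' : (Bool → ℕ) → Prop) (M : ℕ) : Prop :=
  ∀ (S : Finset ℕ) (cl : ℕ → Fin 3) (τ : ℕ → ZMod 2), (∀ p ∈ S, p.Prime ∧ p ≠ 2) →
    Q (fun o => cork o S cl τ) → Q' (fun o => cork o S cl τ) ∨
    ∃ (χ : Fin 3) (𝒯 : Finset (Finset ℕ)) (f : ℕ → ZMod 2), 𝒯.card ≤ M ∧ (∀ T ∈ 𝒯, T ⊆ S) ∧
      ∀ l : ℕ, l.Prime → l ∉ S → l % 8 = 1 → (∀ T ∈ 𝒯, ∑ p ∈ T, nr p l = ∑ p ∈ T, f p) →
        ∃ d : ZMod 2, Q' (fun o => cork o (insert l S) (Function.update cl l χ)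
          (Function.update τ l d))

/-- both coranks are at most `K` -/
def QD (K : ℕ) (k : Bool → ℕ) : Prop := ∀ o, k o ≤ K

/-- the coranks are at most `a`, they differ by at most one, and their sum is at least
`2 a - n - 2` -/
def QU (a n : ℕ) (k : Bool → ℕ) : Prop := (∀ o, k o ≤ a) ∧ k false ≤ k true + 1 ∧
  k true ≤ k false + 1 ∧ 2 * a ≤ k false + k true + n + 2

/-- (STD) down -/
def S_STD : Prop := ∀ K, Steer (QD (K + 1)) (QD K) 2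

/-- (STU) up -/
def S_STU : Prop := ∀ a n, Steer (QU a (n + 1)) (QU a n) (2 ^ (a + 1))

/-! ### primes with prescribed symbols -/

/-- (EQL2) large sieve -/
def S_EQL2 : Prop := ∀ η θ : ℝ, 0 < η → η < 1 → 0 < θ → ∃ X0 : ℕ, ∀ X : ℕ, X0 ≤ X →
  ∀ D : Finset ℕ, (∀ d ∈ D, Odd d ∧ Squarefree d ∧ (d : ℝ) ≤ (X : ℝ) ^ (η / 4) ∧
    θ < |∑ l ∈ rg X η, Jr l d / (l : ℝ)|) → (D.card : ℝ) ≤ Real.log X ^ 3

/-- (EQW2) Siegel-Walfisz -/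
def S_EQW2 : Prop := ∀ η θ : ℝ, 0 < η → η < 1 → 0 < θ → ∀ A : ℕ, ∃ X0 : ℕ, ∀ X : ℕ, X0 ≤ X →
  1 / 12 ≤ ∑ l ∈ rg X η, 1 / (l : ℝ) ∧
  ∀ d : ℕ, 1 < d → Squarefree d → d.Coprime 6 → (d : ℝ) ≤ Real.log X ^ A →
    |∑ l ∈ rg X η, Jr l d / (l : ℝ)| ≤ θ

/-- (EQM) primes with at most `M` prescribed symbols -/
def S_EQM : Prop := ∀ M : ℕ, ∃ c : ℝ, 0 < c ∧ ∀ η : ℝ, 0 < η → η < 1 → ∀ A : ℕ, ∃ X0 : ℕ,
  ∀ X : ℕ, X0 ≤ X → ∃ D : Finset ℕ, (∀ e ∈ D, Real.log X ^ A < (e : ℝ)) ∧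
    (D.card : ℝ) ≤ Real.log X ^ 3 ∧
    ∀ S : Finset ℕ, (∀ p ∈ S, p.Prime ∧ 3 < p) → ((∏ p ∈ S, p : ℕ) : ℝ) ≤ (X : ℝ) ^ (η / 4) →
      Cln D (∏ p ∈ S, p) → ∀ (𝒯 : Finset (Finset ℕ)) (f : ℕ → ZMod 2), 𝒯.card ≤ M →
      (∀ T ∈ 𝒯, T ⊆ S) →
      c ≤ ∑ l ∈ (rg X η).filter (fun l : ℕ => ∀ T ∈ 𝒯, ∑ p ∈ T, nr p (l : ℤ) = ∑ p ∈ T, f p),
        1 / (l : ℝ)

/-! ### the induction -/

open Classical in
/-- the pairs `(u, w)` with the property `G` whose parts composed of the primes up to `y` are `s`,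
with bits `E` -/
noncomputable def ExtG (G : ℕ → ℕ → ℕ → Prop) (X y : ℕ) (s : Fin 3 → ℕ) (E : Finset ℕ) :
    Finset (ℕ × ℕ) :=
  ((Icc 1 X) ×ˢ (Icc 1 X)).filter (fun t => t.1 + 4 * t.2 ≤ X ∧ G t.1 (t.1 + 4 * t.2) t.2 ∧
    (∀ p : ℕ, p.Prime → p ≤ y → ((p ∣ t.1 ↔ p ∣ s 0) ∧ (p ∣ t.1 + 4 * t.2 ↔ p ∣ s 1) ∧
      (p ∣ t.2 ↔ p ∣ s 2))) ∧
    ∀ p ∈ (∏ i, s i).primeFactors, tf t.1 (t.1 + 4 * t.2) t.2 p = ind E p)

/-- the lower bound for the number of the continuations of the states with property `Q` -/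
def PKG (G : ℕ → ℕ → ℕ → Prop) (Q : (Bool → ℕ) → Prop) (K : ℕ) (ρ : ℝ) : Prop :=
  ∃ δ c : ℝ, 0 < δ ∧ δ ≤ 1 / 10 ∧ 0 < c ∧
    ∃ X0 : ℕ, ∀ X : ℕ, X0 ≤ X → ∃ D : Finset ℕ, Sp 20 ρ X D ∧ ∀ (y : ℕ) (s : Fin 3 → ℕ)
    (E : Finset ℕ), (y : ℝ) ≤ (X : ℝ) ^ δ → s ∈ Tup (Fin 3) 3 y →
    ((∏ i, s i : ℕ) : ℝ) ≤ (X : ℝ) ^ δ →
    (2 : ℝ) ^ (∏ i, s i).primeFactors.card * 2 ^ K ≤ Real.log X ^ 20 →
    Cln D (∏ i, s i) → Q (fun o => corkS o s E) →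
    c * (1 / 2) ^ (∏ i, s i).primeFactors.card *
      ((X : ℝ) ^ 2 / (((∏ i, s i : ℕ) : ℝ) * Real.log X ^ 3)) ≤ ((ExtG G X y s E).card : ℝ)

/-- (STP) one step -/
def S_STP : Prop := ∀ (G : ℕ → ℕ → ℕ → Prop) (Q Q' : (Bool → ℕ) → Prop) (M K : ℕ),
  Steer Q Q' M → (∀ ρ : ℝ, 0 < ρ → ρ ≤ 1 / 4 → PKG G Q' K ρ) →
  ∀ ρ : ℝ, 0 < ρ → ρ ≤ 1 / 4 → PKG G Q (K + 1) ρ

/-- (BAS) the first case -/
def S_BAS : Prop := ∀ (a : ℕ) (ρ : ℝ), 0 < ρ → PKG (OkA a) (QU a 0) 0 ρ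

/-- (INDA) -/
def S_INDA : Prop := ∀ a K : ℕ, ∃ K' : ℕ, ∀ ρ : ℝ, 0 < ρ → ρ ≤ 1 / 4 → PKG (OkA a) (QD K) K' ρ

open Classical in
/-- (CNTA) a positive proportion of the pairs is good -/
def S_CNTA : Prop := ∀ a : ℕ, ∃ c : ℝ, 0 < c ∧ ∃ X0 : ℕ, ∀ X : ℕ, X0 ≤ X →
  c * (X : ℝ) ^ 2 ≤ ((((Icc 1 X) ×ˢ (Icc 1 X)).filter (fun t : ℕ × ℕ => t.1 + 4 * t.2 ≤ X ∧
    OkA a t.1 (t.1 + 4 * t.2) t.2)).card : ℝ)

/-! ### the Selmer group -/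

/-- there is a point `P = (x, y)`, `y ≠ 0`, over `K` on `y² = (x - r 0) (x - r 1) (x - r 2)` (up to a
twist by a square) with `x - r i` in the square class of `d i` -/
def LocSol (K : Type) [Field K] (r d : Fin 3 → ℤ) : Prop :=
  ∃ x : K, ∀ i, ∃ z : K, z ≠ 0 ∧ x - (r i : K) = (d i : K) * z ^ 2

/-- the 2-Selmer group of `y² = (x - r 0) (x - r 1) (x - r 2)` as a set of triples of square
classes -/
def SelSet (r : Fin 3 → ℤ) : Set (Fin 3 → ℤ) :=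
  {d | (∀ i, Squarefree (d i)) ∧ IsSquare (d 0 * d 1 * d 2) ∧ LocSol ℝ r d ∧
    ∀ (p : ℕ) [Fact p.Prime], LocSol ℚ_[p] r d}

/-- the roots -/
def rt (o : Bool) (u b w : ℕ) : Fin 3 → ℤ := ![0, mo o u w, b]

/-- (LSR) infinity -/
def S_LSR : Prop := ∀ (o : Bool) (u b w : ℕ), Gd u b w → ∀ e1 e2 e3 : ℤ,
  LA o u b w e1 e2 e3 → LocSol ℝ (rt o u b w) ![e1, e2, e3]

/-- (LS2) the prime 2 -/
def S_LS2 : Prop := ∀ (o : Bool) (u b w : ℕ), Gd u b w → ∀ e1 e2 e3 : ℤ,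
  IsSquare (e1 * e2 * e3) → Odd e1 → Odd e2 → Odd e3 → e3 % 4 = 1 →
  LocSol ℚ_[2] (rt o u b w) ![e1, e2, e3]

/-- (LSB) an odd prime which divides exactly one of the differences of the roots, once; a general
curve. `i`, `j`: the roots that are congruent mod `p`; `k`: the third root -/
def S_LSB : Prop := ∀ (p : ℕ) [Fact p.Prime], p ≠ 2 → ∀ (r d : Fin 3 → ℤ) (i j k : Fin 3),
  i ≠ j → i ≠ k → j ≠ k → (p : ℤ) ∣ r i - r j → ¬ (p : ℤ) ^ 2 ∣ r i - r j →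
  ¬ (p : ℤ) ∣ r i - r k → (∀ n, Squarefree (d n)) → IsSquare (d 0 * d 1 * d 2) →
  ¬ (p : ℤ) ∣ d k → ((p : ℤ) ∣ d i ↔ (p : ℤ) ∣ d j) →
  nr p (d k) = (if (p : ℤ) ∣ d i then nr p (r i - r k) else 0) → LocSol ℚ_[p] r d

/-- (LSG) an odd prime that divides no difference of the roots; a general curve -/
def S_LSG : Prop := ∀ (p : ℕ) [Fact p.Prime], p ≠ 2 → ∀ r d : Fin 3 → ℤ,
  (∀ i j, i ≠ j → ¬ (p : ℤ) ∣ r i - r j) → (∀ n, ¬ (p : ℤ) ∣ d n) → IsSquare (d 0 * d 1 * d 2) →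
  LocSol ℚ_[p] r d

/-- (KERS) every vector of the kernel comes from square classes with all local conditions -/
def S_KERS : Prop := ∀ (o : Bool) (u b w : ℕ), Gd u b w →
  ∀ v ∈ KerE (u * b * w).primeFactors (en o (clf u b) (tf u b w)),
    ∃ e1 e2 e3 : ℤ, LA o u b w e1 e2 e3 ∧ vec u b w e1 e2 = v

/-- (SEL) the number of the elements of the Selmer group -/
def S_SEL : Prop := ∀ (o : Bool) (u b w : ℕ), Gd u b w →
  (SelSet (rt o u b w)).Finite ∧ (SelSet (rt o u b w)).ncard = 2 ^ corkP o u b w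

/-- (GRPN) cosets modulo `2 G` of a group of positive rank with full 2-torsion -/
def S_GRPN : Prop := ∀ (G : Type) [AddCommGroup G], AddGroup.FG G → Module.finrank ℤ G ≠ 0 →
  (∃ T : Finset G, T.card = 4 ∧ ∀ t ∈ T, t + t = 0) → ∀ F : Set G, F.Finite →
  ∃ g : Fin (2 ^ (Module.finrank ℤ G + 2)) → G, (∀ i, g i ∉ F) ∧
    ∀ i j, (∃ q : G, g i = g j + (q + q)) → i = j

/-- (DESCN) the rank is at most the corank minus 2 -/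
def S_DESCN : Prop := ∀ (o : Bool) (u b w : ℕ), Gd u b w →
  Module.finrank ℤ (EAB (mo o u w) b).toAffine.Point ≠ 0 →
  Module.finrank ℤ (EAB (mo o u w) b).toAffine.Point + 2 ≤ corkP o u b w

end Pool.Agent.L0h94.SL
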