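import Pool.Agent.L0h94.SL.Defs
import Pool.Agent.L0h94.RZ.Fin4

/-!
# Project SL: the last statements
-/

set_option autoImplicit false

namespace Pool.Agent.L0h94.SL

open Finset Pool.Agent.W262.RK Pool.Agent.L0h94.RZ Pool.Agent.W307.RT

/-- the Selmer group of `y² = x³ + A x + B`, `c = (A, B)`, has `2 ^ (a + 2)` elements and the rank is
at most `a` -/
def SR (a : ℕ) (c : ℤ × ℤ) : Prop :=
  Module.finrank ℤ (Sh c.1 c.2).toAffine.Point ≤ a ∧
  ∃ r : Fin 3 → ℤ, (∀ x : ℚ, x ^ 3 + (c.1 : ℚ) * x + (c.2 : ℚ) = (x - r 0) * (x - r 1) * (x - r 2)) ∧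
    (SelSet r).Finite ∧ (SelSet r).ncard = 2 ^ (a + 2)

open Classical in
/-- (FINA) a positive proportion of the curves -/
def S_FINA : Prop := ∀ a : ℕ, MainP (SR a)

end Pool.Agent.L0h94.SL
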