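import Pool.Agent.L0h94.SL.MainB
import Pool.Agent.L0h83.SL.Fina

/-!
# Project SL: assembly
-/

set_option autoImplicit false

namespace Pool.Agent.L0h94.SL

open Pool.Agent.L0h94.RZ

theorem m_fina : S_FINA :=
  Pool.Agent.L0h83.SL.fina crv Pool.Agent.LLead.RZ.rli Pool.Agent.LLead.RZ.up m_cnta m_sel m_descn

end Pool.Agent.L0h94.SL
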