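import Pool.Agent.L0h94.SL.Defs
import Pool.Agent.L0h94.RZ.Zero

/-!
# Project SL: states whose coranks are `a` or `a - 1`
-/

set_option autoImplicit false

namespace Pool.Agent.L0h94.SL

open Finset Pool.Agent.W262.RK Pool.Agent.L0h94.RZ

theorem oka (hR : S_ROWS) (hS : S_SYM) (hB : S_BRD) : S_OKA := by
  intro a u b w p q r g hp hq hr hpu hqb hrw hc
  refine ⟨g, ?_⟩
  have hne : u * b * w ≠ 0 := g.sq.ne_zero
  have hcl : ∀ l, l.Prime → l ∣ u * b * w → (clf u b l = 0 ↔ l ∣ u) ∧ (clf u b l = 1 ↔ l ∣ b) ∧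
      (clf u b l = 2 ↔ l ∣ w) := by
    intro l hl hd
    have hm : l ∈ (u * b * w).primeFactors := Nat.mem_primeFactors.2 ⟨hl, hd, hne⟩
    have h0 : l ∈ (u * b * w).primeFactors.filter (fun q => clf u b q = 0) ↔ l ∈ u.primeFactors := by
      rw [g.cl0]
    have h1 : l ∈ (u * b * w).primeFactors.filter (fun q => clf u b q = 1) ↔ l ∈ b.primeFactors := by
      rw [g.cl1]
    have h2 : l ∈ (u * b * w).primeFactors.filter (fun q => clf u b q = 2) ↔ l ∈ w.primeFactors := by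
      rw [g.cl2]
    have hu0 : u ≠ 0 := by rintro rfl; simp at hne
    have hb0 : b ≠ 0 := by rintro rfl; simp at hne
    have hw0 : w ≠ 0 := by rintro rfl; simp at hne
    rw [mem_filter, Nat.mem_primeFactors] at h0 h1 h2
    refine ⟨⟨fun h => ?_, fun h => ?_⟩, ⟨fun h => ?_, fun h => ?_⟩, ⟨fun h => ?_, fun h => ?_⟩⟩
    · exact (Nat.mem_primeFactors.1 (h0.1 ⟨⟨hl, hd, hne⟩, h⟩)).2.1
    · exact (h0.2 (Nat.mem_primeFactors.2 ⟨hl, h, hu0⟩)).2
    · exact (Nat.mem_primeFactors.1 (h1.1 ⟨⟨hl, hd, hne⟩, h⟩)).2.1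
    · exact (h1.2 (Nat.mem_primeFactors.2 ⟨hl, h, hb0⟩)).2
    · exact (Nat.mem_primeFactors.1 (h2.1 ⟨⟨hl, hd, hne⟩, h⟩)).2.1
    · exact (h2.2 (Nat.mem_primeFactors.2 ⟨hl, h, hw0⟩)).2
  have hpd : p ∣ u * b * w := (hpu.mul_right b).mul_right w
  have hqd : q ∣ u * b * w := (hqb.mul_left u).mul_right w
  have hrd : r ∣ u * b * w := hrw.mul_left (u * b)
  have hbr : ∀ o, corkP o u b w =
        cork o ((u * b * w).primeFactors \ {p, q, r}) (clf u b) (tf u b w) + 2 ∨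
      corkP o u b w = cork o ((u * b * w).primeFactors \ {p, q, r}) (clf u b) (tf u b w) + 3 := by
    intro o
    exact hB _ (clf u b) _ (fun x _ y _ => en_symm _ _ _ _ _) (fun χ x hx => hR o u b w g χ x hx)
      p q r (Nat.mem_primeFactors.2 ⟨hp, hpd, hne⟩) (Nat.mem_primeFactors.2 ⟨hq, hqd, hne⟩)
      (Nat.mem_primeFactors.2 ⟨hr, hrd, hne⟩) ((hcl p hp hpd).1.2 hpu) ((hcl q hq hqd).2.1.2 hqb)
      ((hcl r hr hrd).2.2.2 hrw)
  have hpar := par hR hS g
  have hpar2 : (corkP false u b w + corkP true u b w) % 2 = 1 := by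
    have h1 : ((corkP false u b w + corkP true u b w : ℕ) : ZMod 2) = ((1 : ℕ) : ZMod 2) := by
      rw [Nat.cast_one]
      exact hpar
    exact (ZMod.natCast_eq_natCast_iff' _ _ 2).1 h1
  have hf := hbr false
  have ht := hbr true
  have cf := hc false
  have ct := hc true
  by_contra hcon
  push Not at hcon
  have nf := hcon false
  have nt := hcon true
  omega

end Pool.Agent.L0h94.SL
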