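import Pool.Agent.L0h94.SL.Bas
import Pool.Agent.L0h94.RZ.DefsS

/-!
# Project SL: the Selmer group is the kernel of the matrix
-/

set_option autoImplicit false

namespace Pool.Agent.L0h94.SL

open Finset Pool.Agent.W262.RK Pool.Agent.L0h94.RZ

namespace SelM

lemma four {p w : ℕ} (hp : p.Prime) (h2 : p ≠ 2) : (p : ℤ) ∣ 4 * (w : ℤ) ↔ p ∣ w := by
  constructor
  · intro h
    have h1 : p ∣ 4 * w := by exact_mod_cast h
    rcases (Nat.Prime.dvd_mul hp).1 h1 with h3 | h3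
    · exfalso
      have h4 : p ∣ 2 ^ 2 := by norm_num; exact h3
      exact h2 ((Nat.prime_dvd_prime_iff_eq hp Nat.prime_two).1 (hp.dvd_of_dvd_pow h4))
    · exact h3
  · intro h
    exact Dvd.dvd.mul_left (by exact_mod_cast h) _

lemma four2 {p w : ℕ} (hp : p.Prime) (h2 : p ≠ 2) (hw : Squarefree w) :
    ¬ (p : ℤ) ^ 2 ∣ 4 * (w : ℤ) := by
  intro h
  have h1 : p ^ 2 ∣ 4 * w := by exact_mod_cast h
  have hc : Nat.Coprime (p ^ 2) 4 := by
    have : Nat.Coprime p 2 := (Nat.coprime_primes hp Nat.prime_two).2 h2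
    have h4 : Nat.Coprime (p ^ 2) (2 ^ 2) := Nat.Coprime.pow 2 2 this
    simpa using h4
  have h3 : p ^ 2 ∣ w := hc.dvd_of_dvd_mul_left h1
  rw [pow_two] at h3
  exact (Nat.squarefree_iff_prime_squarefree.1 hw) p hp h3

lemma sq2 {p w : ℕ} (hp : p.Prime) (hw : Squarefree w) : ¬ (p : ℤ) ^ 2 ∣ (w : ℤ) := by
  intro h
  have h3 : p ^ 2 ∣ w := by exact_mod_cast h
  rw [pow_two] at h3
  exact (Nat.squarefree_iff_prime_squarefree.1 hw) p hp h3

/-- an odd prime factor of `u b w` divides exactly one of the three differences, once -/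
lemma tri (o : Bool) {u b w : ℕ} (g : Gd u b w) {p : ℕ} (hp : p.Prime) (h2 : p ≠ 2)
    (hd : p ∣ u * b * w) :
    ((p : ℤ) ∣ mo o u w ∧ ¬ (p : ℤ) ^ 2 ∣ mo o u w ∧ ¬ (p : ℤ) ∣ (b : ℤ) ∧
      ¬ (p : ℤ) ∣ (b : ℤ) - mo o u w) ∨
    ((p : ℤ) ∣ (b : ℤ) ∧ ¬ (p : ℤ) ^ 2 ∣ (b : ℤ) ∧ ¬ (p : ℤ) ∣ mo o u w ∧
      ¬ (p : ℤ) ∣ (b : ℤ) - mo o u w) ∨
    ((p : ℤ) ∣ (b : ℤ) - mo o u w ∧ ¬ (p : ℤ) ^ 2 ∣ (b : ℤ) - mo o u w ∧ ¬ (p : ℤ) ∣ (b : ℤ) ∧
      ¬ (p : ℤ) ∣ mo o u w) := by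
  have hb : (b : ℤ) = u + 4 * w := by exact_mod_cast g.hb
  have f1 := four (w := w) hp h2
  have f2 := four2 hp h2 g.sqw
  have f3 := sq2 hp g.squ
  have f4 := sq2 hp g.sqb
  have cu : (p : ℤ) ∣ (u : ℤ) ↔ p ∣ u := Int.natCast_dvd_natCast
  have cb : (p : ℤ) ∣ (b : ℤ) ↔ p ∣ b := Int.natCast_dvd_natCast
  cases o
  · have e1 : mo false u w = 4 * (w : ℤ) := rfl
    have e2 : (b : ℤ) - mo false u w = (u : ℤ) := by rw [e1, hb]; ring
    rw [e2, e1, f1, cu, cb]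
    rcases g.cases (Nat.mem_primeFactors.2 ⟨hp, hd, g.P0⟩) with ⟨a1, a2, a3, -⟩ | ⟨a1, a2, a3, -⟩ |
      ⟨a1, a2, a3, -⟩
    · exact Or.inr (Or.inr ⟨a1, f3, a2, a3⟩)
    · exact Or.inr (Or.inl ⟨a2, f4, a3, a1⟩)
    · exact Or.inl ⟨a3, f2, a2, a1⟩
  · have e1 : mo true u w = (u : ℤ) := rfl
    have e2 : (b : ℤ) - mo true u w = 4 * (w : ℤ) := by rw [e1, hb]; ring
    rw [e2, e1, f1, cu, cb]
    rcases g.cases (Nat.mem_primeFactors.2 ⟨hp, hd, g.P0⟩) with ⟨a1, a2, a3, -⟩ | ⟨a1, a2, a3, -⟩ |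
      ⟨a1, a2, a3, -⟩
    · exact Or.inl ⟨a1, f3, a2, a3⟩
    · exact Or.inr (Or.inl ⟨a2, f4, a1, a3⟩)
    · exact Or.inr (Or.inr ⟨a3, f2, a2, a1⟩)

/-- each prime divides none or two of the three numbers -/
lemma two {o : Bool} {u b w : ℕ} (g : Gd u b w) {e1 e2 e3 : ℤ} (h : LA o u b w e1 e2 e3) {p : ℕ}
    (hp : p.Prime) :
    (¬ (p : ℤ) ∣ e1 ∧ ¬ (p : ℤ) ∣ e2 ∧ ¬ (p : ℤ) ∣ e3) ∨ ((p : ℤ) ∣ e1 ∧ (p : ℤ) ∣ e2 ∧ ¬ (p : ℤ) ∣ e3) ∨
    ((p : ℤ) ∣ e1 ∧ ¬ (p : ℤ) ∣ e2 ∧ (p : ℤ) ∣ e3) ∨ (¬ (p : ℤ) ∣ e1 ∧ (p : ℤ) ∣ e2 ∧ (p : ℤ) ∣ e3) := by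
  obtain ⟨-, -, -, -, -, o1, o2, o3, -, l1, l2, l3, l4⟩ := h
  by_cases h2 : p = 2
  · subst h2
    left
    refine ⟨fun hd => ?_, fun hd => ?_, fun hd => ?_⟩
    · exact (Int.not_even_iff_odd.2 o1) (even_iff_two_dvd.2 (by exact_mod_cast hd))
    · exact (Int.not_even_iff_odd.2 o2) (even_iff_two_dvd.2 (by exact_mod_cast hd))
    · exact (Int.not_even_iff_odd.2 o3) (even_iff_two_dvd.2 (by exact_mod_cast hd))
  by_cases hd : p ∣ u * b * w
  · rcases tri o g hp h2 hd with ⟨a, -, -, -⟩ | ⟨a, -, -, -⟩ | ⟨a, -, -, -⟩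
    · obtain ⟨c1, c2, -⟩ := l2 p hp h2 a
      tauto
    · obtain ⟨c1, c2, -⟩ := l3 p hp h2 (by exact_mod_cast a)
      tauto
    · obtain ⟨c1, c2, -⟩ := l4 p hp h2 a
      tauto
  · exact Or.inl (l1 p hp h2 hd)

lemma isSq {e1 e2 e3 : ℤ} (s1 : Squarefree e1) (s2 : Squarefree e2) (s3 : Squarefree e3)
    (h1 : 0 < e1) (h23 : 0 < e2 * e3) (h : ∀ p : ℕ, p.Prime →
    (¬ (p : ℤ) ∣ e1 ∧ ¬ (p : ℤ) ∣ e2 ∧ ¬ (p : ℤ) ∣ e3) ∨ ((p : ℤ) ∣ e1 ∧ (p : ℤ) ∣ e2 ∧ ¬ (p : ℤ) ∣ e3) ∨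
    ((p : ℤ) ∣ e1 ∧ ¬ (p : ℤ) ∣ e2 ∧ (p : ℤ) ∣ e3) ∨
    (¬ (p : ℤ) ∣ e1 ∧ (p : ℤ) ∣ e2 ∧ (p : ℤ) ∣ e3)) : IsSquare (e1 * e2 * e3) := by
  obtain ⟨A, hA⟩ : ∃ A, A = e1.natAbs := ⟨_, rfl⟩
  obtain ⟨B, hB⟩ : ∃ B, B = e2.natAbs := ⟨_, rfl⟩
  obtain ⟨C, hC⟩ : ∃ C, C = e3.natAbs := ⟨_, rfl⟩
  have sA : Squarefree A := by rw [hA]; exact Int.squarefree_natAbs.2 s1
  have sB : Squarefree B := by rw [hB]; exact Int.squarefree_natAbs.2 s2
  have sC : Squarefree C := by rw [hC]; exact Int.squarefree_natAbs.2 s3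
  have hA0 : 0 < A := Nat.pos_of_ne_zero sA.ne_zero
  have dA : ∀ p : ℕ, (p : ℤ) ∣ e1 ↔ p ∣ A := fun p => by rw [hA]; exact Int.natCast_dvd
  have dB : ∀ p : ℕ, (p : ℤ) ∣ e2 ↔ p ∣ B := fun p => by rw [hB]; exact Int.natCast_dvd
  have dC : ∀ p : ℕ, (p : ℤ) ∣ e3 ↔ p ∣ C := fun p => by rw [hC]; exact Int.natCast_dvd
  obtain ⟨G, hG⟩ : ∃ G, G = Nat.gcd A B := ⟨_, rfl⟩
  obtain ⟨a, ha⟩ : G ∣ A := by rw [hG]; exact Nat.gcd_dvd_left _ _
  obtain ⟨c, hc⟩ : G ∣ B := by rw [hG]; exact Nat.gcd_dvd_right _ _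
  have hG0 : 0 < G := by rw [hG]; exact Nat.gcd_pos_of_pos_left _ hA0
  have hac : Nat.Coprime a c := by
    have h4 : Nat.gcd (G * a) (G * c) = G := by rw [← ha, ← hc]; exact hG.symm
    rw [Nat.gcd_mul_left] at h4
    exact Nat.eq_of_mul_eq_mul_left hG0 (by rw [h4, mul_one])
  have sac : Squarefree (a * c) := by
    refine (Nat.squarefree_mul hac).2 ⟨?_, ?_⟩
    · exact sA.squarefree_of_dvd ⟨G, by rw [ha]; ring⟩
    · exact sB.squarefree_of_dvd ⟨G, by rw [hc]; ring⟩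
  have hCac : C = a * c := by
    rw [← Nat.prod_primeFactors_of_squarefree sC, ← Nat.prod_primeFactors_of_squarefree sac]
    congr 1
    ext p
    rw [Nat.mem_primeFactors, Nat.mem_primeFactors]
    have key : p.Prime → (p ∣ C ↔ p ∣ a * c) := by
      intro hp
      have hT := h p hp
      rw [dA, dB, dC] at hT
      have hGp : p ∣ G ↔ p ∣ A ∧ p ∣ B := by rw [hG]; exact Nat.dvd_gcd_iff
      have hnA : ¬ (p ∣ G ∧ p ∣ a) := by
        rintro ⟨x1, x2⟩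
        have : p * p ∣ A := by rw [ha]; exact Nat.mul_dvd_mul x1 x2
        exact (Nat.squarefree_iff_prime_squarefree.1 sA) p hp this
      have hnB : ¬ (p ∣ G ∧ p ∣ c) := by
        rintro ⟨x1, x2⟩
        have : p * p ∣ B := by rw [hc]; exact Nat.mul_dvd_mul x1 x2
        exact (Nat.squarefree_iff_prime_squarefree.1 sB) p hp this
      have hpA : p ∣ A ↔ p ∣ G ∨ p ∣ a := by rw [ha]; exact hp.dvd_mul
      have hpB : p ∣ B ↔ p ∣ G ∨ p ∣ c := by rw [hc]; exact hp.dvd_mul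
      have hnac : ¬ (p ∣ a ∧ p ∣ c) := by
        rintro ⟨x1, x2⟩
        have := Nat.dvd_gcd x1 x2
        rw [hac] at this
        exact hp.one_lt.ne' (Nat.dvd_one.1 this)
      rw [hp.dvd_mul]
      tauto
    constructor
    · rintro ⟨x1, x2, -⟩
      exact ⟨x1, (key x1).1 x2, sac.ne_zero⟩
    · rintro ⟨x1, x2, -⟩
      exact ⟨x1, (key x1).2 x2, sC.ne_zero⟩
  have hprod : e1 * e2 * e3 = ((A * B * C : ℕ) : ℤ) := by
    have hpos : 0 < e1 * e2 * e3 := by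
      rw [mul_assoc]; exact mul_pos h1 h23
    have : (e1 * e2 * e3).natAbs = A * B * C := by
      rw [Int.natAbs_mul, Int.natAbs_mul, hA, hB, hC]
    rw [← this]
    exact (Int.natAbs_of_nonneg hpos.le).symm
  refine ⟨((G * a * c : ℕ) : ℤ), ?_⟩
  rw [hprod, hCac, ha, hc]
  push_cast
  ring

lemma LA_sq {o : Bool} {u b w : ℕ} (g : Gd u b w) {e1 e2 e3 : ℤ} (h : LA o u b w e1 e2 e3) :
    IsSquare (e1 * e2 * e3) :=
  isSq h.1 h.2.1 h.2.2.1 h.2.2.2.1 h.2.2.2.2.1 fun _ hp => two g h hp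

lemma lsq {K : Type} [Field K] {o : Bool} {u b w : ℕ} {d : Fin 3 → ℤ}
    (hd : ∀ i, (d i : K) ≠ 0) (hsq : IsSquare (d 0 * d 1 * d 2))
    (h : LocSol K (rt o u b w) d) : LSq K (mo o u w) b (d 0) (d 1) := by
  obtain ⟨x, hx⟩ := h
  obtain ⟨z0, n0, h0⟩ := hx 0
  obtain ⟨z1, n1, h1⟩ := hx 1
  obtain ⟨z2, n2, h2⟩ := hx 2
  obtain ⟨s, hs⟩ := hsq
  have hs' : (d 0 : K) * d 1 * d 2 = s * s := by exact_mod_cast congrArg (Int.cast : ℤ → K) hs
  have r0 : ((rt o u b w 0 : ℤ) : K) = 0 := by simp [rt]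
  have r1 : ((rt o u b w 1 : ℤ) : K) = (mo o u w : K) := by simp [rt]
  have r2 : ((rt o u b w 2 : ℤ) : K) = ((b : ℤ) : K) := by simp [rt]
  rw [r0, sub_zero] at h0
  rw [r1] at h1
  rw [r2] at h2
  have hs0 : (s : K) ≠ 0 := by
    intro h3
    rw [h3, mul_zero] at hs'
    exact mul_ne_zero (mul_ne_zero (hd 0) (hd 1)) (hd 2) hs'
  refine ⟨x, s * z0 * z1 * z2, mul_ne_zero (mul_ne_zero (mul_ne_zero hs0 n0) n1) n2, ?_, ?_, ?_⟩
  · rw [h1, h2, h0]
    linear_combination (-(z0 * z1 * z2) ^ 2) * hs'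
  · exact ⟨(d 0 : K) * z0, by rw [h0]; ring⟩
  · exact ⟨(d 1 : K) * z1, by rw [h1]; ring⟩

lemma finK (S : Finset ℕ) (e : ℕ → ℕ → ZMod 2) : Module.Finite (ZMod 2) (KerE S e) := by
  let φ : KerE S e →ₗ[ZMod 2] (S → ZMod 2) :=
    { toFun := fun v s => (v : ℕ → ZMod 2) s
      map_add' := fun _ _ => rfl
      map_smul' := fun _ _ => rfl }
  have hφ : Function.Injective φ := by
    intro v v' hv
    apply Subtype.ext
    funext n
    by_cases hn : n ∈ S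
    · exact congrFun hv ⟨n, hn⟩
    · rw [v.2.1 n hn, v'.2.1 n hn]
  exact Module.Finite.of_injective φ hφ

end SelM

open SelM

theorem sel (hL2 : S_L2) (hLPQ : S_LPQ) (hLR : S_LR) (hKER : S_KER) (k1 : S_LSR) (k2 : S_LS2)
    (k3 : S_LSB) (k4 : S_LSG) (k5 : S_KERS) : S_SEL := by
  intro o u b w g
  -- Selmer elements satisfy the local conditions
  have hA : ∀ d ∈ SelSet (rt o u b w), LA o u b w (d 0) (d 1) (d 2) := by
    rintro d ⟨hs, hsq, hR, hp⟩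
    have hz : ∀ i, d i ≠ 0 := fun i => (hs i).ne_zero
    have lR : LSq ℝ (mo o u w) b (d 0) (d 1) := lsq (fun i => by exact_mod_cast hz i) hsq hR
    have lp : ∀ (p : ℕ) [Fact p.Prime], LSq ℚ_[p] (mo o u w) b (d 0) (d 1) := fun p _ =>
      lsq (fun i => by exact_mod_cast hz i) hsq (hp p)
    obtain ⟨o1, o2, o3, q3⟩ := hL2 o u b w g _ _ _ (hs 0) (hs 1) (hs 2) hsq (lp 2)
    have hLP := hLPQ o u b w g _ _ _ (hs 0) (hs 1) (hs 2) hsq (fun p _ _ => lp p)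
    obtain ⟨r1, r2⟩ := hLR o u b w g _ _ _ (mul_ne_zero (mul_ne_zero (hz 0) (hz 1)) (hz 2)) hsq lR
    exact ⟨hs 0, hs 1, hs 2, r1, r2, o1, o2, o3, q3, hLP⟩
  -- and conversely
  have hB : ∀ e1 e2 e3 : ℤ, LA o u b w e1 e2 e3 → ![e1, e2, e3] ∈ SelSet (rt o u b w) := by
    intro e1 e2 e3 h
    have hsq := LA_sq g h
    have hLA := h
    obtain ⟨s1, s2, s3, p1, p23, o1, o2, o3, q3, l1, l2, l3, l4⟩ := h
    refine ⟨?_, hsq, k1 o u b w g _ _ _ hLA, ?_⟩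
    · intro i
      fin_cases i
      · exact s1
      · exact s2
      · exact s3
    · intro p hF
      have hp : p.Prime := hF.out
      by_cases h2 : p = 2
      · subst h2
        exact k2 o u b w g e1 e2 e3 hsq o1 o2 o3 q3
      have hsf : ∀ n, Squarefree ((![e1, e2, e3] : Fin 3 → ℤ) n) := by
        intro i
        fin_cases i
        · exact s1
        · exact s2
        · exact s3
      by_cases hd : p ∣ u * b * w
      · rcases tri o g hp h2 hd with ⟨a1, a2, a3, a4⟩ | ⟨a1, a2, a3, a4⟩ | ⟨a1, a2, a3, a4⟩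
        · obtain ⟨c1, c2, c3⟩ := l2 p hp h2 a1
          refine k3 p h2 (rt o u b w) ![e1, e2, e3] 0 1 2 (by decide) (by decide) (by decide)
            ?_ ?_ ?_ hsf hsq c1 c2 ?_
          · simpa [rt] using a1
          · simpa [rt] using a2
          · simpa [rt] using a3
          · simpa [rt] using c3
        · obtain ⟨c1, c2, c3⟩ := l3 p hp h2 (by exact_mod_cast a1)
          refine k3 p h2 (rt o u b w) ![e1, e2, e3] 0 2 1 (by decide) (by decide) (by decide)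
            ?_ ?_ ?_ hsf hsq c1 c2 ?_
          · simpa [rt] using a1
          · simpa [rt] using a2
          · simpa [rt] using a3
          · simpa [rt] using c3
        · obtain ⟨c1, c2, c3⟩ := l4 p hp h2 a1
          refine k3 p h2 (rt o u b w) ![e1, e2, e3] 1 2 0 (by decide) (by decide) (by decide)
            ?_ ?_ ?_ hsf hsq c1 c2 ?_
          · have : (p : ℤ) ∣ -((b : ℤ) - mo o u w) := (dvd_neg).2 a1
            simpa [rt] using this
          · have : ¬ (p : ℤ) ^ 2 ∣ -((b : ℤ) - mo o u w) := fun h => a2 ((dvd_neg).1 h)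
            simpa [rt] using this
          · simpa [rt] using a4
          · simpa [rt] using c3
      · obtain ⟨c1, c2, c3⟩ := l1 p hp h2 hd
        have hb : (b : ℤ) = u + 4 * w := by exact_mod_cast g.hb
        have nu : ¬ (p : ℤ) ∣ (u : ℤ) := fun h => hd
          (((Int.natCast_dvd_natCast.1 h).mul_right b).mul_right w)
        have nb : ¬ (p : ℤ) ∣ (b : ℤ) := fun h => hd
          (((Int.natCast_dvd_natCast.1 h).mul_left u).mul_right w)
        have nw : ¬ (p : ℤ) ∣ 4 * (w : ℤ) := fun h => hd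
          (((four hp h2).1 h).mul_left (u * b))
        have nm : ¬ (p : ℤ) ∣ mo o u w := by
          cases o
          · exact nw
          · exact nu
        have nn : ¬ (p : ℤ) ∣ (b : ℤ) - mo o u w := by
          cases o
          · have : (b : ℤ) - mo false u w = u := by rw [hb]; simp [mo]
            rw [this]
            exact nu
          · have : (b : ℤ) - mo true u w = 4 * (w : ℤ) := by rw [hb]; simp [mo]
            rw [this]
            exact nw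
        have nn' : ¬ (p : ℤ) ∣ mo o u w - (b : ℤ) := fun h => nn (by
          have := (dvd_neg (a := (p : ℤ))).2 h
          rwa [neg_sub] at this)
        refine k4 p h2 (rt o u b w) ![e1, e2, e3] ?_ ?_ hsq
        · intro i j hij
          fin_cases i <;> fin_cases j <;>
            first
            | exact absurd rfl hij
            | simpa [rt] using nm
            | simpa [rt] using nb
            | simpa [rt] using nn
            | simpa [rt] using nn'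
        · intro n
          fin_cases n
          · exact c1
          · exact c2
          · exact c3
  -- the bijection with the kernel
  have hbij : (fun d : Fin 3 → ℤ => vec u b w (d 0) (d 1)) '' SelSet (rt o u b w) =
      ((KerE (u * b * w).primeFactors (en o (clf u b) (tf u b w)) :
        Submodule (ZMod 2) (ℕ → ZMod 2)) : Set (ℕ → ZMod 2)) := by
    ext v
    constructor
    · rintro ⟨d, hd, rfl⟩
      exact (hKER o u b w g).1 _ _ _ (hA d hd)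
    · intro hv
      obtain ⟨e1, e2, e3, h1, h2⟩ := k5 o u b w g v hv
      exact ⟨![e1, e2, e3], hB _ _ _ h1, h2⟩
  have hinj : Set.InjOn (fun d : Fin 3 → ℤ => vec u b w (d 0) (d 1)) (SelSet (rt o u b w)) := by
    intro d hd d' hd' h
    obtain ⟨h0, h1, h2⟩ := (hKER o u b w g).2 _ _ _ _ _ _ (hA d hd) (hA d' hd') h
    funext i
    fin_cases i
    · exact h0
    · exact h1
    · exact h2
  haveI := finK (u * b * w).primeFactors (en o (clf u b) (tf u b w))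
  have hfin : Finite (KerE (u * b * w).primeFactors (en o (clf u b) (tf u b w))) :=
    Module.finite_of_finite (ZMod 2)
  have hcard : ((KerE (u * b * w).primeFactors (en o (clf u b) (tf u b w)) :
        Submodule (ZMod 2) (ℕ → ZMod 2)) : Set (ℕ → ZMod 2)).ncard = 2 ^ corkP o u b w := by
    rw [← Nat.card_coe_set_eq]
    have := Module.natCard_eq_pow_finrank (K := ZMod 2)
      (V := KerE (u * b * w).primeFactors (en o (clf u b) (tf u b w)))
    rw [Nat.card_zmod] at this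
    exact this
  constructor
  · refine Set.Finite.of_finite_image ?_ hinj
    rw [hbij]
    exact Set.toFinite _
  · rw [← Set.ncard_image_of_injOn hinj, hbij, hcard]

end Pool.Agent.L0h94.SL
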