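import Pool.Agent.L0h94.SL.Stp
import Pool.Agent.L0h94.SL.BasC
import Pool.Agent.L0h94.SL.Oka
import Pool.Agent.L0h94.SL.Cnta
import Pool.Agent.L0h94.SL.Sel
import Pool.Agent.L0h94.RZ.Main
import Pool.Agent.L0h57.SL.Lsg
import Pool.Agent.L0h57.SL.Lsr
import Pool.Agent.L0h66.SL.Eqm
import Pool.Agent.L0h66.SL.Kers
import Pool.Agent.L0h71.SL.Eql2
import Pool.Agent.L0h71.SL.Eqw2
import Pool.Agent.L0h71.SL.Grpn
import Pool.Agent.L0h90.SL.Brd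
import Pool.Agent.L0h90.SL.Ups
import Pool.Agent.L0h61.SL.LS2
import Pool.Agent.L0h61.RZ.Lpq
import Pool.Agent.LLead.RZ.Lr
import Pool.Agent.L0h19.RZ.L2

/-!
# Project SL: assembly, first part
-/

set_option autoImplicit false

namespace Pool.Agent.L0h94.SL

open Pool.Agent.L0h94.RZ

theorem m_eqm : S_EQM := Pool.Agent.L0h66.SL.eqm_of Pool.Agent.L0h71.SL.eql2 Pool.Agent.L0h71.SL.eqw2

theorem m_stp : S_STP := stp_of m_eqm

theorem m_oka : S_OKA := oka Pool.Agent.L0h53.RZ.rows Pool.Agent.L0h71.RZ.sym Pool.Agent.L0h90.SL.brd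

theorem m_bas : S_BAS := bas m_an m_oka

theorem m_inda : S_INDA :=
  inda m_stp m_bas (Pool.Agent.L0h57.SL.std Pool.Agent.L0h59.RZ.steer)
    (Pool.Agent.L0h57.SL.stu Pool.Agent.L0h90.SL.ups)

theorem m_cnta : S_CNTA := cnta m_mass m_inda

theorem m_sel_of (h : S_LSB) : S_SEL :=
  sel Pool.Agent.L0h19.RZ.L2.l2 Pool.Agent.L0h61.RZ.lpq Pool.Agent.LLead.RZ.lr
    Pool.Agent.L0h53.RZ.ker Pool.Agent.L0h57.SL.lsr Pool.Agent.L0h61.SL.ls2 h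
    Pool.Agent.L0h57.SL.lsg Pool.Agent.L0h66.SL.kers

end Pool.Agent.L0h94.SL
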