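import Pool.Agent.L0h94.SL.MainA
import Pool.Agent.L0h47.SL.DESCN
import Pool.Agent.L0h47.SL.LSB

/-!
# Project SL: assembly, second part
-/

set_option autoImplicit false

namespace Pool.Agent.L0h94.SL

open Pool.Agent.L0h94.RZ

theorem m_descn : S_DESCN :=
  Pool.Agent.L0h47.SL.descn Pool.Agent.L0h61.RZ.loc2 Pool.Agent.L0h47.RZ.locp
    Pool.Agent.L0h53.RZ.ker Pool.Agent.L0h71.SL.grpn

theorem m_sel : S_SEL := m_sel_of Pool.Agent.L0h47.SL.lsb

end Pool.Agent.L0h94.SL
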