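import Pool.Agent.L0h94.SL.Defs
import Pool.Agent.L0h3.RZ.Ind

/-!
# Project SL: one step of the induction
-/

set_option autoImplicit false

namespace Pool.Agent.L0h94.SL

open Finset Pool.Agent.W262.RK Pool.Agent.L0h94.RZ Pool.Agent.L0h94.RZ.Ind

lemma mem_ExtG {G : ℕ → ℕ → ℕ → Prop} {X y : ℕ} {s : Fin 3 → ℕ} {E : Finset ℕ} {t : ℕ × ℕ} :
    t ∈ ExtG G X y s E ↔
    ((1 ≤ t.1 ∧ t.1 ≤ X) ∧ (1 ≤ t.2 ∧ t.2 ≤ X)) ∧
    t.1 + 4 * t.2 ≤ X ∧ G t.1 (t.1 + 4 * t.2) t.2 ∧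
    (∀ p : ℕ, p.Prime → p ≤ y → ((p ∣ t.1 ↔ p ∣ s 0) ∧ (p ∣ t.1 + 4 * t.2 ↔ p ∣ s 1) ∧
      (p ∣ t.2 ↔ p ∣ s 2))) ∧
    ∀ p ∈ (∏ i, s i).primeFactors, tf t.1 (t.1 + 4 * t.2) t.2 p = ind E p := by
  simp only [ExtG, mem_filter, mem_product, mem_Icc]

lemma ExtG_up {G : ℕ → ℕ → ℕ → Prop} {y : ℕ} {s : Fin 3 → ℕ} {l : ℕ} {X y' : ℕ}
    (hs : s ∈ Tup (Fin 3) 3 y) (hl : l.Prime) (hy : y < l)
    (hly : l ≤ y') (χ : Fin 3) (E : Finset ℕ) (d : ZMod 2) :
    ExtG G X y' (upS s χ l) (upE E l d) ⊆ ExtG G X y s E := by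
  intro t ht
  rw [mem_ExtG] at ht ⊢
  obtain ⟨h1, h2, h3, h4, h5⟩ := ht
  refine ⟨h1, h2, h3, fun p hp hpy => ?_, fun p hp => ?_⟩
  · have hne : p ≠ l := by omega
    have := h4 p hp (by omega)
    rw [dvd_upS_ne hp hl hne, dvd_upS_ne hp hl hne, dvd_upS_ne hp hl hne] at this
    exact this
  · have hb := bd_of_Tup hs hp
    have hne : p ≠ l := by omega
    rw [h5 p (by rw [pf_upS hs hl]; exact mem_insert_of_mem hp), ind_upE_ne E d hne]

lemma ExtG_disj {G : ℕ → ℕ → ℕ → Prop} {y : ℕ} {s : Fin 3 → ℕ} {l : ℕ} {X y' l' : ℕ}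
    (hs : s ∈ Tup (Fin 3) 3 y) (hl : l.Prime) (hy : y < l)
    (hly : l ≤ y') (hl' : l'.Prime) (hne : l ≠ l') (χ χ' : Fin 3)
    (E : Finset ℕ) (d d' : ZMod 2) :
    Disjoint (ExtG G X y' (upS s χ l) (upE E l d)) (ExtG G X y' (upS s χ' l') (upE E l' d')) := by
  rw [disjoint_left]
  intro t ht ht'
  rw [mem_ExtG] at ht ht'
  have h4 := ht.2.2.2.1 l hl hly
  have h4' := ht'.2.2.2.1 l hl hly
  rw [dvd_upS_self hs hl hy, dvd_upS_self hs hl hy, dvd_upS_self hs hl hy] at h4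
  rw [dvd_upS_ne hl hl' hne, dvd_upS_ne hl hl' hne, dvd_upS_ne hl hl' hne] at h4'
  have n0 := not_dvd hs hl hy 0
  have n1 := not_dvd hs hl hy 1
  have n2 := not_dvd hs hl hy 2
  have : χ = 0 ∨ χ = 1 ∨ χ = 2 := by
    fin_cases χ <;> simp
  rcases this with rfl | rfl | rfl
  · exact n0 (h4'.1.1 (h4.1.2 rfl))
  · exact n1 (h4'.2.1.1 (h4.2.1.2 rfl))
  · exact n2 (h4'.2.2.1 (h4.2.2.2 rfl))

lemma ev2 (ρ η κ : ℝ) (hρ : 0 < ρ) (hη : 0 < η) (hκ : 0 < κ) : ∃ X1 : ℕ, ∀ X : ℕ, X1 ≤ X →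
    1 ≤ X ∧ 1 ≤ Real.log X ∧ 2 ≤ (Real.log X ^ 20) ^ (ρ / 2) ∧
    (X : ℝ) ^ (-(η / 2)) ≤ κ := by
  have h1 : Filter.Tendsto (fun X : ℕ => Real.log (X : ℝ)) Filter.atTop Filter.atTop :=
    Real.tendsto_log_atTop.comp tendsto_natCast_atTop_atTop
  have h2 : Filter.Tendsto (fun X : ℕ => (Real.log (X : ℝ) ^ 20) ^ (ρ / 2)) Filter.atTop
      Filter.atTop := (tendsto_rpow_atTop (by positivity)).comp
        ((Filter.tendsto_pow_atTop (by norm_num)).comp h1)
  have h3 : Filter.Tendsto (fun X : ℕ => (X : ℝ) ^ (-(η / 2))) Filter.atTop (nhds 0) :=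
    (tendsto_rpow_neg_atTop (by positivity)).comp tendsto_natCast_atTop_atTop
  have e : ∀ᶠ X : ℕ in Filter.atTop, 1 ≤ X ∧ 1 ≤ Real.log X ∧
      2 ≤ (Real.log X ^ 20) ^ (ρ / 2) ∧ (X : ℝ) ^ (-(η / 2)) ≤ κ := by
    filter_upwards [Filter.eventually_ge_atTop 1, h1.eventually_ge_atTop 1,
      h2.eventually_ge_atTop 2, h3.eventually_le_const hκ]
      with X a b c d
    exact ⟨a, b, c, d⟩
  exact Filter.eventually_atTop.1 e

open Classical in
theorem stp_of (hEQ : S_EQM) : S_STP := by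
  intro G Q Q' M K hST IH ρ hρ hρ4
  obtain ⟨κ, hκ, hEQ⟩ := hEQ M
  obtain ⟨δK, cK, hδK, hδK1, hcK, XK, hK⟩ := IH (ρ / 2) (by linarith) (by linarith)
  obtain ⟨η, hη⟩ : ∃ η : ℝ, η = δK / 9 := ⟨_, rfl⟩
  have hη0 : 0 < η := by rw [hη]; positivity
  have hη1 : η < 1 := by rw [hη]; linarith
  obtain ⟨A, hA⟩ := exists_nat_ge (max 20 (6 / ρ))
  have hA20 : 20 ≤ A := by exact_mod_cast (le_max_left _ _).trans hA
  have hA6 : 6 / ρ ≤ A := (le_max_right _ _).trans hA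
  obtain ⟨XE, hE⟩ := hEQ η hη0 hη1 A
  obtain ⟨X1, h1⟩ := ev2 ρ η (κ / 2) hρ hη0 (by positivity)
  refine ⟨η / 4, cK * min 1 κ / 4, by positivity, by rw [hη]; linarith, by positivity,
    max XK (max XE X1), fun X hX => ?_⟩
  obtain ⟨hX1, hlog, hl2, hX200⟩ :=
    h1 X (((le_max_right _ _).trans (le_max_right _ _)).trans hX)
  obtain ⟨DK, hDK, hK⟩ := hK X ((le_max_left _ _).trans hX)
  obtain ⟨D1, hD1a, hD1c, hE⟩ := hE X (((le_max_left _ _).trans (le_max_right _ _)).trans hX)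
  refine ⟨DK ∪ D1, Sp_union hρ hA20 hA6 hlog hl2 hDK hD1a hD1c,
    fun y s E hy hs hps hom hcl hco => ?_⟩
  have hXr : (1 : ℝ) ≤ X := by exact_mod_cast hX1
  have hX0 : (0 : ℝ) < X := by linarith
  have hclK : Cln DK (∏ i, s i) := fun e he => hcl e (mem_union_left _ he)
  have hcl1 : Cln D1 (∏ i, s i) := fun e he => hcl e (mem_union_right _ he)
  have hsq := sqf_of_Tup hs
  have hNpos : 0 < ∏ i, s i := Nat.pos_of_ne_zero hsq.ne_zero
  have hNr : (0 : ℝ) < ((∏ i, s i : ℕ) : ℝ) := by exact_mod_cast hNpos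
  have hlog0 : 0 < Real.log X := by linarith
  have hmono : ∀ {a b : ℝ}, a ≤ b → (X : ℝ) ^ a ≤ (X : ℝ) ^ b := fun h =>
    Real.rpow_le_rpow_of_exponent_le hXr h
  by_cases hcase : Q' (fun o => corkS o s E)
  · have hom' : (2 : ℝ) ^ (∏ i, s i).primeFactors.card * 2 ^ K ≤ Real.log X ^ 20 := by
      refine le_trans ?_ hom
      gcongr
      · norm_num
      · omega
    have := hK y s E (hy.trans (hmono (by rw [hη]; linarith))) hs
      (hps.trans (hmono (by rw [hη]; linarith))) hom' hclK hcase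
    refine le_trans ?_ this
    have hle : cK * min 1 κ / 4 ≤ cK := by
      have := min_le_left 1 κ
      have := mul_le_mul_of_nonneg_left this hcK.le
      linarith
    gcongr
  · rcases hST (∏ i, s i).primeFactors (clf (s 0) (s 1)) (ind E)
      (fun p hp => ⟨(bd_of_Tup hs hp).1, by have := (bd_of_Tup hs hp).2.1; omega⟩) hco with
      hl | ⟨χ, T, f, hTM, hT, hst⟩
    · exact absurd hl hcase
    have hsum := hE (∏ i, s i).primeFactors
      (fun p hp => ⟨(bd_of_Tup hs hp).1, (bd_of_Tup hs hp).2.1⟩)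
      (by rw [prod_pf hsq]; exact hps) (by rw [prod_pf hsq]; exact hcl1) T f hTM hT
    obtain ⟨R, hRdef⟩ : ∃ R : Finset ℕ, R = (rg X η).filter
      (fun l : ℕ => ∀ T' ∈ T, ∑ p ∈ T', nr p (l : ℤ) = ∑ p ∈ T', f p) := ⟨_, rfl⟩
    have hsumR : κ ≤ ∑ l ∈ R, 1 / (l : ℝ) := by
      rw [hRdef]
      convert hsum
    have hR : ∀ l ∈ R, l.Prime ∧ l % 24 = 1 ∧ (X : ℝ) ^ η < l ∧ (l : ℝ) ≤ (X : ℝ) ^ (2 * η) ∧
        ∀ T' ∈ T, ∑ p ∈ T', nr p (l : ℤ) = ∑ p ∈ T', f p := by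
      intro l hl
      rw [hRdef] at hl
      simp only [rg, mem_filter, mem_Ioc] at hl
      obtain ⟨⟨⟨a, b⟩, c, d⟩, e⟩ := hl
      refine ⟨c, d, Nat.lt_of_floor_lt a, ?_, e⟩
      exact (Nat.cast_le.2 b).trans (Nat.floor_le (by positivity))
    have hyl : ∀ l ∈ R, y < l := by
      intro l hl
      have : (y : ℝ) < l := lt_of_le_of_lt (hy.trans (hmono (by linarith))) (hR l hl).2.2.1
      exact_mod_cast this
    have hd : ∀ l ∈ R, ∃ d : ZMod 2, Q' (fun o => corkS o (upS s χ l) (upE E l d)) := by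
      intro l hl
      obtain ⟨hlp, hl24, _, _, hlT⟩ := hR l hl
      obtain ⟨d, hd⟩ := hst l hlp (fun hmem => by
        have := (bd_of_Tup hs hmem).2.2
        have := hyl l hl
        omega) (by omega) hlT
      refine ⟨d, ?_⟩
      have hfun : (fun o => corkS o (upS s χ l) (upE E l d)) = fun o => cork o
          (insert l (∏ i, s i).primeFactors) (Function.update (clf (s 0) (s 1)) l χ)
          (Function.update (ind E) l d) := by
        funext o
        exact corkS_up o hs hlp (hyl l hl) χ E d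
      rw [hfun]
      exact hd
    choose! d hd using hd
    obtain ⟨N, hN⟩ : ∃ N : ℕ, N = ∏ i, s i := ⟨_, rfl⟩
    obtain ⟨GG, hG⟩ : ∃ GG : Finset ℕ, GG = R.filter (fun l => Cln DK (l * N)) := ⟨_, rfl⟩
    obtain ⟨y', hy'⟩ : ∃ y' : ℕ, y' = ⌊(X : ℝ) ^ (2 * η)⌋₊ := ⟨_, rfl⟩
    have hly' : ∀ l ∈ R, l ≤ y' := by
      intro l hl
      rw [hy']
      exact Nat.le_floor (hR l hl).2.2.2.1
    have hy'X : (y' : ℝ) ≤ (X : ℝ) ^ (2 * η) := by
      rw [hy']
      exact Nat.floor_le (by positivity)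
    rw [← hN] at hps hom hNr hNpos hclK ⊢
    have hlN : ∀ l ∈ R, (l : ℝ) * N ≤ (X : ℝ) ^ (9 * η / 4) := by
      intro l hl
      calc (l : ℝ) * N ≤ (X : ℝ) ^ (2 * η) * (X : ℝ) ^ (η / 4) := by
            apply mul_le_mul (hR l hl).2.2.2.1 hps (by positivity) (by positivity)
        _ = (X : ℝ) ^ (9 * η / 4) := by
            rw [← Real.rpow_add hX0]; congr 1; ring
    have hl3 : ∀ l ∈ R, 3 < l := by
      intro l hl
      obtain ⟨hlp, hl24, _⟩ := hR l hl
      have := hlp.one_lt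
      omega
    have hExt : ∀ l ∈ GG, cK * (1 / 2) ^ (N.primeFactors.card + 1) *
        ((X : ℝ) ^ 2 / (((l * N : ℕ) : ℝ) * Real.log X ^ 3)) ≤
        ((ExtG G X y' (upS s χ l) (upE E l (d l))).card : ℝ) := by
      intro l hl
      rw [hG] at hl
      obtain ⟨hlR, hcln⟩ := mem_filter.1 hl
      obtain ⟨hlp, hl24, hlX, hlX2, hlT⟩ := hR l hlR
      have hcard : (∏ i, upS s χ l i).primeFactors.card = N.primeFactors.card + 1 := by
        rw [pf_upS hs hlp, card_insert_of_notMem, hN]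
        intro hmem
        have := (bd_of_Tup hs hmem).2.2
        have := hyl l hlR
        omega
      have hpr : ∏ i, upS s χ l i = l * N := by rw [prod_upS, hN]
      have := hK y' (upS s χ l) (upE E l (d l)) (hy'X.trans (hmono (by rw [hη]; linarith)))
        (upS_Tup hs hlp (hl3 l hlR) (hyl l hlR) (hly' l hlR) χ)
        (by
          rw [hpr]
          push_cast
          exact (hlN l hlR).trans (hmono (by rw [hη]; linarith)))
        (by
          rw [hcard]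
          refine le_trans (le_of_eq ?_) hom
          ring)
        (by rw [hpr]; exact hcln) (hd l hlR)
      rw [hcard, hpr] at this
      exact this
    have hdisj : (↑GG : Set ℕ).PairwiseDisjoint
        (fun l => ExtG G X y' (upS s χ l) (upE E l (d l))) := by
      intro l hl l' hl' hne
      rw [hG, mem_coe, mem_filter] at hl hl'
      exact ExtG_disj hs (hR l hl.1).1 (hyl l hl.1) (hly' l hl.1) (hR l' hl'.1).1 hne χ χ E _ _
    have hcount : ∑ l ∈ GG, (ExtG G X y' (upS s χ l) (upE E l (d l))).card ≤ (ExtG G X y s E).card := by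
      rw [← card_biUnion hdisj]
      apply card_le_card
      intro t ht
      obtain ⟨l, hl, ht⟩ := mem_biUnion.1 ht
      rw [hG, mem_filter] at hl
      exact ExtG_up hs (hR l hl.1).1 (hyl l hl.1) (hly' l hl.1) χ E _ ht
    -- the sum over the good primes
    have hbad : ∑ l ∈ R.filter (fun l => ¬ Cln DK (l * N)), 1 / (l : ℝ) ≤ κ / 2 := by
      have hb1 : (R.filter (fun l => ¬ Cln DK (l * N))).card ≤
          (DK.filter (fun e => e ≤ ⌊(X : ℝ) ^ (9 * η / 4)⌋₊)).card := by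
        refine bad_card hNpos hclK R (fun l hl => ⟨(hR l hl).1, ?_, ?_⟩)
        · rw [hN]
          exact not_dvd_prod hs (hR l hl).1 (hyl l hl)
        · apply Nat.le_floor
          push_cast
          exact hlN l hl
      have hb2 : ((DK.filter (fun e => e ≤ ⌊(X : ℝ) ^ (9 * η / 4)⌋₊)).card : ℝ) ≤
          (X : ℝ) ^ (η / 2) := by
        refine (hDK.2 _).trans ?_
        calc ((⌊(X : ℝ) ^ (9 * η / 4)⌋₊ : ℕ) : ℝ) ^ (ρ / 2) ≤
              ((X : ℝ) ^ (9 * η / 4)) ^ (ρ / 2) :=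
              Real.rpow_le_rpow (Nat.cast_nonneg _) (Nat.floor_le (by positivity)) (by positivity)
          _ = (X : ℝ) ^ (9 * η / 4 * (ρ / 2)) := by rw [← Real.rpow_mul hX0.le]
          _ ≤ (X : ℝ) ^ (η / 2) := by
              apply hmono
              nlinarith [mul_le_mul_of_nonneg_left hρ4 hη0.le]
      calc ∑ l ∈ R.filter (fun l => ¬ Cln DK (l * N)), 1 / (l : ℝ) ≤
            ∑ l ∈ R.filter (fun l => ¬ Cln DK (l * N)), (X : ℝ) ^ (-η) := by
              apply sum_le_sum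
              intro l hl
              have := (hR l (mem_filter.1 hl).1).2.2.1
              rw [Real.rpow_neg hX0.le, one_div]
              exact inv_anti₀ (by positivity) this.le
        _ = ((R.filter (fun l => ¬ Cln DK (l * N))).card : ℝ) * (X : ℝ) ^ (-η) := by
              rw [sum_const, nsmul_eq_mul]
        _ ≤ (X : ℝ) ^ (η / 2) * (X : ℝ) ^ (-η) := by
              apply mul_le_mul_of_nonneg_right _ (by positivity)
              exact (Nat.cast_le.2 hb1).trans hb2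
        _ = (X : ℝ) ^ (-(η / 2)) := by
              rw [← Real.rpow_add hX0]; congr 1; ring
        _ ≤ κ / 2 := hX200
    have hgood : min 1 κ / 2 ≤ ∑ l ∈ GG, 1 / (l : ℝ) := by
      have := sum_filter_add_sum_filter_not R (fun l => Cln DK (l * N)) (fun l => 1 / (l : ℝ))
      rw [hG]
      have := min_le_right 1 κ
      linarith
    calc cK * min 1 κ / 4 * (1 / 2) ^ N.primeFactors.card * ((X : ℝ) ^ 2 / ((N : ℝ) * Real.log X ^ 3)) =
          cK * (1 / 2) ^ (N.primeFactors.card + 1) *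
            ((X : ℝ) ^ 2 / ((N : ℝ) * Real.log X ^ 3)) * (min 1 κ / 2) := by ring
      _ ≤ cK * (1 / 2) ^ (N.primeFactors.card + 1) *
            ((X : ℝ) ^ 2 / ((N : ℝ) * Real.log X ^ 3)) * ∑ l ∈ GG, 1 / (l : ℝ) := by
          apply mul_le_mul_of_nonneg_left hgood
          positivity
      _ = ∑ l ∈ GG, cK * (1 / 2) ^ (N.primeFactors.card + 1) *
        ((X : ℝ) ^ 2 / (((l * N : ℕ) : ℝ) * Real.log X ^ 3)) := by
          rw [mul_sum]
          apply sum_congr rfl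
          intro l hl
          rw [hG] at hl
          have hl0 : (l : ℝ) ≠ 0 := by
            exact_mod_cast (hR l (mem_filter.1 hl).1).1.ne_zero
          push_cast
          field_simp
      _ ≤ ∑ l ∈ GG, ((ExtG G X y' (upS s χ l) (upE E l (d l))).card : ℝ) := sum_le_sum hExt
      _ ≤ ((ExtG G X y s E).card : ℝ) := by exact_mod_cast hcount

end Pool.Agent.L0h94.SL
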